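import Mathlib
import Pool.Agent.Run7.h840.CGU.Growth

/-!
# Almost all unlabelled convex geometries are primitive (MP_0c861e, Q2)

`U n` is the number of isomorphism classes of convex geometries on `n` elements and `Upr n` is the
number of the classes that contain a primitive geometry (then all geometries of the class are
primitive). The theorem says that `Upr n / U n` tends to `1`.

The starting file `LabelledPrimitive` answers Q1, with the bound `N n / L n = O(n³ / 2ⁿ)` for the
proportion of the labelled geometries that are not primitive; Q2 needs a proportion smaller than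
`1 / n!`. New here: a geometry with at least `(n + 1) n²` members has a level with `n²` members, so
it has `2 ^ (n²)` extensions by one point, and the geometries with fewer members are negligible;
hence `L (n + 1) ≥ 2 ^ (n² - 1) L n`, and `N n * n! * 2 ^ n ≤ L n`.
-/

namespace Pool.Agent.Results.MP_0c861e_co.UnlabelledPrimitive

open Finset Pool.Agent.R129.CG Pool.Agent.Results.MP_0c861e_co.LabelledPrimitive Run7.h840.CGU

lemma iso_refl {X : Type} (G : Set (Set X)) : Iso G G := ⟨Equiv.refl X, fun D => by simp⟩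

lemma iso_symm {X Z : Type} {G : Set (Set X)} {H : Set (Set Z)} (h : Iso G H) : Iso H G := by
  obtain ⟨e, he⟩ := h
  refine ⟨e.symm, fun D => ?_⟩
  rw [he (e.symm '' D)]
  have : e '' (e.symm '' D) = D := by
    rw [← Set.image_comp]
    simp
  rw [this]

lemma iso_trans {X Y Z : Type} {G : Set (Set X)} {H : Set (Set Y)} {K : Set (Set Z)}
    (h : Iso G H) (h' : Iso H K) : Iso G K := by
  obtain ⟨e, he⟩ := h
  obtain ⟨e', he'⟩ := h'
  refine ⟨e.trans e', fun D => ?_⟩
  rw [he, he', ← Set.image_comp]
  rfl

/-- Isomorphism of convex geometries on a set with `n` elements. -/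
def isoSetoid (n : ℕ) : Setoid {G : Set (Set (Fin n)) // IsCG G} where
  r G H := Iso G.1 H.1
  iseqv := ⟨fun G => iso_refl G.1, fun h => iso_symm h, fun h h' => iso_trans h h'⟩

/-- The number of isomorphism classes of convex geometries on `n` elements. -/
noncomputable def U (n : ℕ) : ℕ := Nat.card (Quotient (isoSetoid n))

/-- The number of isomorphism classes of primitive convex geometries on `n` elements. -/
noncomputable def Upr (n : ℕ) : ℕ :=
  Nat.card {q : Quotient (isoSetoid n) //
    ∃ G : {G : Set (Set (Fin n)) // IsCG G}, Primitive G.1 ∧ Quotient.mk (isoSetoid n) G = q}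

/-- Primitivity is invariant under isomorphism. -/
lemma primitive_iso {X Z : Type} {G : Set (Set X)} {H : Set (Set Z)} (h : Iso G H)
    (hG : Primitive G) : Primitive H := by
  rintro ⟨X', Y, GX, GY, a1, a2, a3, a4, a5, a6, a7, a8⟩
  exact hG ⟨X', Y, GX, GY, a1, a2, a3, a4, a5, a6, a7, iso_trans h a8⟩

lemma U_eq (n : ℕ) : ∃ K, U n = Upr n + K ∧ K ≤ N n := by
  classical
  set P : Set (Quotient (isoSetoid n)) := {q | ∃ G : {G : Set (Set (Fin n)) // IsCG G},
    Primitive G.1 ∧ Quotient.mk (isoSetoid n) G = q} with hP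
  have h1 : Upr n = P.ncard := Nat.card_coe_set_eq _
  have h2 : U n = P.ncard + Pᶜ.ncard := by
    rw [Set.ncard_add_ncard_compl]
    rfl
  refine ⟨Pᶜ.ncard, by rw [h1, h2], ?_⟩
  unfold N
  refine Set.ncard_le_ncard_of_injOn (fun q => (Quotient.out q).1) ?_ ?_ (Set.toFinite _)
  · intro q hq
    refine ⟨(Quotient.out q).2, fun hprim => hq ?_⟩
    exact ⟨Quotient.out q, hprim, Quotient.out_eq q⟩
  · intro q _ q' _ h
    have h3 : Quotient.out q = Quotient.out q' := Subtype.ext h
    rw [← Quotient.out_eq q, h3, Quotient.out_eq q']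

lemma L_le_U (n : ℕ) : L n ≤ n.factorial * U n := by
  classical
  have hcard : Nat.card (Equiv.Perm (Fin n) × Quotient (isoSetoid n)) = n.factorial * U n := by
    rw [Nat.card_prod, Nat.card_eq_fintype_card (α := Equiv.Perm (Fin n)), Fintype.card_perm,
      Fintype.card_fin]
    rfl
  rw [← hcard]
  unfold L
  refine Nat.card_le_card_of_surjective
    (fun p : Equiv.Perm (Fin n) × Quotient (isoSetoid n) =>
      (⟨{D | p.1 ⁻¹' D ∈ (Quotient.out p.2).1}, isCG_image p.1 (Quotient.out p.2).2⟩ :
        {G : Set (Set (Fin n)) // IsCG G})) ?_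
  intro G
  have h1 : Iso (Quotient.out (Quotient.mk (isoSetoid n) G)).1 G.1 :=
    Quotient.exact (s := isoSetoid n) (Quotient.out_eq (Quotient.mk (isoSetoid n) G))
  obtain ⟨e, he⟩ := h1
  refine ⟨(e, Quotient.mk (isoSetoid n) G), ?_⟩
  apply Subtype.ext
  ext D
  change e ⁻¹' D ∈ (Quotient.out (Quotient.mk (isoSetoid n) G)).1 ↔ D ∈ G.1
  rw [he, e.image_preimage]

lemma U_pos (n : ℕ) : 0 < U n := by
  have h := L_le_U n
  have h' := L_pos n
  rcases Nat.eq_zero_or_pos (U n) with h0 | h0
  · rw [h0] at h
    omega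
  · exact h0

/-- **Result (Q2).** The proportion of the primitive ones among the isomorphism classes of convex
geometries on `n` elements tends to `1`. -/
theorem result : Filter.Tendsto (fun n : ℕ => (Upr n : ℝ) / (U n : ℝ)) Filter.atTop (nhds 1) := by
  have h1 : Filter.Tendsto (fun n : ℕ => ((1 : ℝ) / 2) ^ n) Filter.atTop (nhds 0) :=
    tendsto_pow_atTop_nhds_zero_of_lt_one (by norm_num) (by norm_num)
  have h2 : Filter.Tendsto (fun n : ℕ => (1 : ℝ) - (1 / 2) ^ n) Filter.atTop (nhds 1) := by
    have := h1.const_sub 1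
    simpa using this
  refine tendsto_of_tendsto_of_tendsto_of_le_of_le' h2 tendsto_const_nhds ?_ ?_
  · rw [Filter.eventually_atTop]
    refine ⟨65, fun n hn => ?_⟩
    obtain ⟨K, hK, hKN⟩ := U_eq n
    have hU : (0 : ℝ) < U n := by exact_mod_cast U_pos n
    have h3 := N_small n hn
    have h4 := L_le_U n
    have h5 : K * 2 ^ n ≤ U n := by
      have h6 : n.factorial * (K * 2 ^ n) ≤ n.factorial * U n := by
        calc n.factorial * (K * 2 ^ n) = K * (n.factorial * 2 ^ n) := by ring
          _ ≤ N n * (n.factorial * 2 ^ n) := Nat.mul_le_mul_right _ hKN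
          _ ≤ L n := h3
          _ ≤ n.factorial * U n := h4
      exact Nat.le_of_mul_le_mul_left h6 (Nat.factorial_pos n)
    have h7 : (K : ℝ) * 2 ^ n ≤ U n := by exact_mod_cast h5
    have h8 : (U n : ℝ) = Upr n + K := by exact_mod_cast hK
    have hp : (0 : ℝ) < 2 ^ n := by positivity
    have h9 : (K : ℝ) / U n ≤ (1 / 2) ^ n := by
      rw [div_le_iff₀ hU, div_pow, one_pow, div_mul_eq_mul_div, one_mul, le_div_iff₀ hp]
      exact h7
    have h10 : (Upr n : ℝ) / U n = 1 - (K : ℝ) / U n := by
      rw [eq_sub_iff_add_eq, ← add_div, ← h8, div_self hU.ne']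
    rw [h10]
    linarith
  · refine Filter.Eventually.of_forall (fun n => ?_)
    obtain ⟨K, hK, -⟩ := U_eq n
    have hU : (0 : ℝ) < U n := by exact_mod_cast U_pos n
    rw [div_le_one hU]
    have h6 : (U n : ℝ) = Upr n + K := by exact_mod_cast hK
    have : (0 : ℝ) ≤ K := by positivity
    linarith

end Pool.Agent.Results.MP_0c861e_co.UnlabelledPrimitive
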